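import Mathlib

set_option autoImplicit false

namespace Pool.Agent.MP_6f70ff_gt

variable {V W : Type}

/-- `N` is a `k`-net: maximal under inclusion among `k`-separated vertex sets. -/
def IsNet (G : SimpleGraph V) (k : ℕ) (N : Set V) : Prop :=
  Maximal (fun S : Set V => ∀ u ∈ S, ∀ v ∈ S, u ≠ v → k ≤ G.dist u v) N

/-- The `k`-net graph on `N`. -/
def netGraph (G : SimpleGraph V) (k : ℕ) (N : Set V) : SimpleGraph N where
  Adj u v := 0 < G.dist u.1 v.1 ∧ G.dist u.1 v.1 ≤ 2 * k
  symm := ⟨fun u v h => by rwa [G.dist_comm]⟩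
  loopless := ⟨fun u h => by simp at h⟩

/-- `f` is a `C`-rough isometry between the graph metrics of `G` and `H`. -/
def IsRoughIsometry (G : SimpleGraph V) (H : SimpleGraph W) (C : ℝ) (f : V → W) : Prop :=
  (∀ x y, C⁻¹ * (H.dist (f x) (f y) : ℝ) - C ≤ (G.dist x y : ℝ) ∧
    (G.dist x y : ℝ) ≤ C * (H.dist (f x) (f y) : ℝ) + C) ∧
  ∀ y, ∃ x, (H.dist (f x) y : ℝ) < C

/-- The infimum of the `C > 0` for which there is a `C`-rough isometry from `G` to `H`. -/
noncomputable def roughConst (G : SimpleGraph V) (H : SimpleGraph W) : ℝ :=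
  sInf {C : ℝ | 0 < C ∧ ∃ f : V → W, IsRoughIsometry G H C f}

/-- For every choice of `k`-nets the constants `C_k` tend to one. -/
def SubScaleInvariant (G : SimpleGraph V) : Prop :=
  ∀ N : ℕ → Set V, (∀ k, 1 ≤ k → IsNet G k (N k)) →
    Filter.Tendsto (fun k => roughConst G (netGraph G k (N k))) Filter.atTop (nhds 1)

end Pool.Agent.MP_6f70ff_gt
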