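import Pool.Agent.MP_6f70ff_gt.Defs

set_option autoImplicit false

namespace Pool.Agent.MP_6f70ff_gt

lemma pigeon (s : Finset ℤ) (P : ℤ → ℕ → Prop) (anti : ∀ x n m, n ≤ m → P x m → P x n)
    (h : ∀ n, ∃ x ∈ s, P x n) : ∃ x ∈ s, ∀ n, P x n := by
  by_contra h0
  push Not at h0
  choose! g hg using h0
  obtain ⟨x, hx, hP⟩ := h (s.sup g)
  exact hg x hx (anti x _ _ (Finset.le_sup hx) hP)

lemma exists_biorbit (f : ℤ → ℤ) (c : ℕ) (h1 : ∀ x, x < f x) (h2 : ∀ x, f x ≤ x + c) :
    ∃ γ : ℤ → ℤ, ∀ n, γ (n + 1) = f (γ n) := by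
  let P : ℤ → ℕ → Prop := fun x n => ∃ y, f^[n] y = x
  have anti : ∀ x n m, n ≤ m → P x m → P x n := by
    rintro x n m hnm ⟨y, rfl⟩
    obtain ⟨d, rfl⟩ := Nat.exists_eq_add_of_le hnm
    exact ⟨f^[d] y, by rw [Function.iterate_add_apply]⟩
  have up : ∀ (m : ℕ) y, f^[m] y ≤ y + m * c := by
    intro m y
    induction m with
    | zero => simp
    | succ m ih => rw [Function.iterate_succ_apply']; have := h2 (f^[m] y); push_cast; linarith
  have lo : ∀ (m : ℕ) y, y + m ≤ f^[m] y := by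
    intro m y
    induction m with
    | zero => simp
    | succ m ih => rw [Function.iterate_succ_apply']; have := h1 (f^[m] y); push_cast; linarith
  have c1 : ∃ x, ∀ n, P x n := by
    obtain ⟨x, -, hx⟩ := pigeon (Finset.Icc 0 c) P anti (by
      intro n
      have ex : ∃ m : ℕ, 0 < f^[m] (-(n * c : ℤ)) :=
        ⟨n * c + 1, by have := lo (n * c + 1) (-(n * c : ℤ)); push_cast at this; linarith⟩
      classical
      have hm := Nat.find_spec ex
      have hn : n < Nat.find ex := by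
        by_contra h
        have := up (Nat.find ex) (-(n * c : ℤ))
        have h3 : ((Nat.find ex : ℕ) : ℤ) ≤ n := by exact_mod_cast not_lt.mp h
        nlinarith [(by positivity : (0 : ℤ) ≤ c)]
      obtain ⟨m, hm2⟩ : ∃ m, Nat.find ex = m + 1 := ⟨Nat.find ex - 1, by omega⟩
      have hm3 := Nat.find_min ex (by omega : m < Nat.find ex)
      refine ⟨f^[Nat.find ex] (-(n * c : ℤ)), ?_, anti _ _ _ hn.le ⟨_, rfl⟩⟩
      rw [Finset.mem_Icc]
      refine ⟨hm.le, ?_⟩
      rw [hm2, Function.iterate_succ_apply']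
      have := h2 (f^[m] (-(n * c : ℤ)))
      linarith [not_lt.mp hm3])
    exact ⟨x, hx⟩
  have c2 : ∀ x : {x // ∀ n, P x n}, ∃ y : {x // ∀ n, P x n}, f y.1 = x.1 := by
    rintro ⟨x, hx⟩
    obtain ⟨y, -, hy⟩ := pigeon (Finset.Icc (x - c) x) (fun y n => f y = x ∧ P y n)
      (fun y n m hnm h => ⟨h.1, anti _ _ _ hnm h.2⟩) (by
        intro n
        obtain ⟨z, hz⟩ := hx (n + 1)
        rw [Function.iterate_succ_apply'] at hz
        refine ⟨f^[n] z, ?_, hz, z, rfl⟩
        rw [Finset.mem_Icc]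
        have := h1 (f^[n] z)
        have := h2 (f^[n] z)
        constructor <;> linarith)
    exact ⟨⟨y, fun n => (hy n).2⟩, (hy 0).1⟩
  obtain ⟨x0, hx0⟩ := c1
  choose g hg using c2
  refine ⟨fun n => if 0 ≤ n then f^[n.toNat] x0 else (g^[(-n).toNat] ⟨x0, hx0⟩).1, fun n => ?_⟩
  rcases lt_trichotomy n (-1) with h | rfl | h
  · have e : (-n).toNat = (-(n + 1)).toNat + 1 := by omega
    simp only [show ¬ 0 ≤ n + 1 by omega, show ¬ 0 ≤ n by omega, if_false]
    rw [e, Function.iterate_succ_apply', hg]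
  · simp [hg]
  · have e : (n + 1).toNat = n.toNat + 1 := by omega
    simp only [show 0 ≤ n + 1 by omega, show 0 ≤ n by omega, if_true]
    rw [e, Function.iterate_succ_apply']

section geo
variable {W : Type} (H : SimpleGraph W)

lemma chain_walk (γ : ℤ → W) (h : ∀ n, H.Adj (γ n) (γ (n + 1))) (i : ℤ) (m : ℕ) :
    ∃ p : H.Walk (γ i) (γ (i + m)), p.length = m := by
  induction m with
  | zero => exact ⟨(SimpleGraph.Walk.nil : H.Walk (γ i) (γ i)).copy rfl (by simp), by simp⟩
  | succ m ih =>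
    obtain ⟨p, hp⟩ := ih
    exact ⟨(p.concat (h (i + m))).copy rfl (by push_cast; rw [add_assoc]), by simp [hp]⟩

lemma walk_bound (pos : W → ℤ) (f : ℤ → ℤ) (hf : Monotone f)
    (h : ∀ a b, H.Adj a b → pos b ≤ f (pos a)) {a b : W} (p : H.Walk a b) :
    pos b ≤ f^[p.length] (pos a) := by
  induction p with
  | nil => simp
  | cons hab p ih =>
    simp only [SimpleGraph.Walk.length_cons, Function.iterate_succ_apply]
    exact ih.trans (hf.iterate _ (h _ _ hab))

lemma geodesic (pos : W → ℤ) (f : ℤ → ℤ) (hf : Monotone f) (hlt : ∀ x, x < f x)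
    (h : ∀ a b, H.Adj a b → pos b ≤ f (pos a)) (γ : ℤ → W)
    (hγ : ∀ n, H.Adj (γ n) (γ (n + 1))) (hγ2 : ∀ n, pos (γ (n + 1)) = f (pos (γ n))) (i j : ℤ) :
    H.Reachable (γ i) (γ j) ∧ (H.dist (γ i) (γ j) : ℤ) = |i - j| := by
  wlog hij : i ≤ j generalizing i j
  · obtain ⟨h1, h2⟩ := this j i (by omega)
    exact ⟨h1.symm, by rw [H.dist_comm, h2, abs_sub_comm]⟩
  obtain ⟨m, rfl⟩ : ∃ m : ℕ, j = i + m := ⟨(j - i).toNat, by omega⟩
  obtain ⟨p, hp⟩ := chain_walk H γ hγ i m
  refine ⟨⟨p⟩, ?_⟩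
  have h1 : H.dist (γ i) (γ (i + m)) ≤ m := (SimpleGraph.dist_le p).trans hp.le
  obtain ⟨q, hq⟩ := SimpleGraph.Reachable.exists_walk_length_eq_dist ⟨p⟩
  have h2 := walk_bound H pos f hf h q
  have it : ∀ n : ℕ, f^[n] (pos (γ i)) = pos (γ (i + n)) := by
    intro n
    induction n with
    | zero => simp
    | succ n ih => rw [Function.iterate_succ_apply', ih, ← hγ2]; push_cast; rw [add_assoc]
  have sm : StrictMono fun n => pos (γ n) := strictMono_int_of_lt_succ fun n => by
    simp only [hγ2]; exact hlt _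
  rw [it, hq] at h2
  have h3 := sm.le_iff_le.mp h2
  have : |i - (i + m)| = m := by simp
  omega

end geo

/-- the bi-infinite path -/
def line : SimpleGraph ℤ where
  Adj x y := y = x + 1 ∨ x = y + 1
  symm := ⟨fun _ _ h => h.symm⟩
  loopless := ⟨fun x h => by omega⟩

lemma line_geo (i j : ℤ) : line.Reachable i j ∧ (line.dist i j : ℤ) = |i - j| :=
  geodesic line id (fun x => x + 1) (fun _ _ h => by simpa using h) (fun x => by omega)
    (fun a b h => by rcases h with h | h <;> simp <;> omega) id (fun n => Or.inl rfl)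
    (fun n => rfl) i j

lemma line_dist (i j : ℤ) : (line.dist i j : ℤ) = |i - j| := (line_geo i j).2

lemma net_cover {k : ℕ} (hk : 1 ≤ k) {N : Set ℤ} (hN : IsNet line k N) (x : ℤ) :
    ∃ y ∈ N, |x - y| < k := by
  by_contra h0
  push Not at h0
  have hx : x ∉ N := fun h => by have := h0 x h; simp at this; omega
  apply hx
  refine hN.2 (y := insert x N) ?_ (Set.subset_insert _ _) (Set.mem_insert _ _)
  rintro u (rfl | hu) v (rfl | hv) huv
  · exact absurd rfl huv
  · have := h0 v hv; have := line_dist u v; omega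
  · have := h0 u hu; have := line_dist u v; rw [abs_sub_comm] at this; omega
  · exact hN.1 u hu v hv huv

lemma net_geo {k : ℕ} (hk : 1 ≤ k) {N : Set ℤ} (hN : IsNet line k N) :
    ∃ γ : ℤ → N, (∀ i j, (netGraph line k N).Reachable (γ i) (γ j) ∧
      ((netGraph line k N).dist (γ i) (γ j) : ℤ) = |i - j|) ∧
      ∀ y, ∃ i, γ i = y ∨ (netGraph line k N).Adj (γ i) y := by
  have ex : ∀ x : ℤ, ∃ z, (z ∈ N ∧ z ≤ x + 2 * k) ∧ ∀ w, (w ∈ N ∧ w ≤ x + 2 * k) → w ≤ z := by
    intro x
    apply Int.exists_greatest_of_bdd ⟨x + 2 * k, fun z hz => hz.2⟩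
    obtain ⟨y, hy, h⟩ := net_cover hk hN (x + k)
    exact ⟨y, hy, by have := abs_lt.mp h; omega⟩
  choose f hf hmax using ex
  have hlt : ∀ x, x < f x := by
    intro x
    obtain ⟨y, hy, h⟩ := net_cover hk hN (x + k)
    have := abs_lt.mp h
    have := hmax x y ⟨hy, by omega⟩
    omega
  have hmono : Monotone f := fun a b hab => hmax b _ ⟨(hf a).1, by have := (hf a).2; omega⟩
  obtain ⟨γ, hγ⟩ := exists_biorbit f (2 * k) hlt (fun x => by have := (hf x).2; omega)
  have hmem : ∀ n, γ n ∈ N := fun n => by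
    have := hγ (n - 1); rw [sub_add_cancel] at this; rw [this]; exact (hf _).1
  have adj : ∀ a b : N, (netGraph line k N).Adj a b ↔ 0 < |a.1 - b.1| ∧ |a.1 - b.1| ≤ 2 * k := by
    intro a b
    have := line_dist a.1 b.1
    change (0 < line.dist a.1 b.1 ∧ line.dist a.1 b.1 ≤ 2 * k) ↔ _
    omega
  refine ⟨fun n => ⟨γ n, hmem n⟩, geodesic _ Subtype.val f hmono hlt ?_ _ ?_ hγ, ?_⟩
  · intro a b hab
    rw [adj] at hab
    exact hmax _ _ ⟨b.2, by have := abs_le.mp hab.2; omega⟩
  · intro n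
    rw [adj]
    have := hlt (γ n)
    have := (hf (γ n)).2
    simp only [hγ]
    rw [abs_sub_comm, abs_of_pos (by omega)]
    omega
  · intro y
    have sm : StrictMono γ := strictMono_int_of_lt_succ fun n => by rw [hγ]; exact hlt _
    have lin : ∀ (m : ℕ) (i : ℤ), γ i + m ≤ γ (i + m) := by
      intro m i
      induction m with
      | zero => simp
      | succ m ih =>
        have := sm (by omega : i + m < i + (m + 1 : ℕ))
        push_cast at this ⊢; omega
    obtain ⟨i, hi, hi2⟩ := Int.exists_greatest_of_bdd (P := fun i => γ i ≤ y.1)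
      ⟨(y.1 - γ 0).natAbs, fun z hz => by
        by_contra h
        have := lin z.toNat 0
        rw [show (0 : ℤ) + z.toNat = z by omega] at this
        omega⟩
      ⟨-((γ 0 - y.1).natAbs : ℤ), by
        have := lin (γ 0 - y.1).natAbs (-((γ 0 - y.1).natAbs : ℤ))
        rw [neg_add_cancel] at this
        omega⟩
    refine ⟨i, ?_⟩
    have h3 : y.1 < γ (i + 1) := by
      by_contra h; have := hi2 (i + 1) (not_lt.mp h); omega
    rw [hγ] at h3
    have := (hf (γ i)).2
    rcases hi.lt_or_eq with h4 | h4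
    · right
      rw [adj]
      simp only
      rw [abs_sub_comm, abs_of_pos (by omega)]
      omega
    · left; exact Subtype.ext h4

lemma net_connected {k : ℕ} (hk : 1 ≤ k) {N : Set ℤ} (hN : IsNet line k N) :
    (netGraph line k N).Connected := by
  obtain ⟨γ, h1, h2⟩ := net_geo hk hN
  have : ∀ y, ∃ i, (netGraph line k N).Reachable (γ i) y := by
    intro y
    obtain ⟨i, rfl | h⟩ := h2 y
    · exact ⟨i, SimpleGraph.Reachable.refl _⟩
    · exact ⟨i, h.reachable⟩
  have hne : Nonempty N := ⟨γ 0⟩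
  refine ⟨fun a b => ?_⟩
  obtain ⟨i, hi⟩ := this a
  obtain ⟨j, hj⟩ := this b
  exact hi.symm.trans ((h1 i j).1.trans hj)

lemma roughConst_eq_one {k : ℕ} (hk : 1 ≤ k) {N : Set ℤ} (hN : IsNet line k N) :
    roughConst line (netGraph line k N) = 1 := by
  obtain ⟨γ, h1, h2⟩ := net_geo hk hN
  have mem : ∀ C : ℝ, 1 < C →
      C ∈ {C : ℝ | 0 < C ∧ ∃ f : ℤ → N, IsRoughIsometry line (netGraph line k N) C f} := by
    intro C hC
    refine ⟨by linarith, γ, fun x y => ?_, fun y => ?_⟩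
    · have e : (netGraph line k N).dist (γ x) (γ y) = line.dist x y := by
        have := (h1 x y).2; have := line_dist x y; omega
      rw [e]
      have a0 : (0 : ℝ) ≤ line.dist x y := by positivity
      have a1 : C⁻¹ ≤ 1 := inv_le_one_of_one_le₀ hC.le
      constructor <;> nlinarith
    · obtain ⟨i, rfl | h⟩ := h2 y
      · exact ⟨i, by simp; linarith⟩
      · exact ⟨i, by rw [SimpleGraph.dist_eq_one_iff_adj.mpr h]; simpa using hC⟩
  have low : ∀ C ∈ {C : ℝ | 0 < C ∧ ∃ f : ℤ → N, IsRoughIsometry line (netGraph line k N) C f},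
      1 ≤ C := by
    rintro C ⟨hC, f, hf, -⟩
    by_contra h
    push Not at h
    obtain ⟨n, hn⟩ := exists_nat_gt (2 / (1 - C))
    obtain ⟨a1, a2⟩ := hf n 0
    have e : line.dist n 0 = n := by have := line_dist n 0; simp at this; exact this
    rw [e] at a1 a2
    rw [div_lt_iff₀ (by linarith)] at hn
    set d : ℝ := (((netGraph line k N).dist (f n) (f 0) : ℕ) : ℝ)
    have d0 : 0 ≤ d := by positivity
    have a3 : d ≤ C⁻¹ * d := le_mul_of_one_le_left d0 ((one_le_inv₀ hC).mpr h.le)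
    nlinarith
  apply le_antisymm
  · exact le_of_forall_gt_imp_ge_of_dense fun C hC => csInf_le ⟨1, low⟩ (mem C hC)
  · exact le_csInf ⟨2, mem 2 one_lt_two⟩ low

lemma exists_net {k : ℕ} (hk : 1 ≤ k) : ∃ N, IsNet line k N := by
  refine ⟨{x | (k : ℤ) ∣ x}, fun u hu v hv huv => ?_, fun S hS hsub x hx => ?_⟩
  · have := Int.le_of_dvd (abs_pos.mpr (sub_ne_zero.mpr huv)) ((dvd_abs _ _).mpr (dvd_sub hu hv))
    have := line_dist u v
    omega
  · by_contra h
    have h1 : x - x % k ∈ S := hsub (Int.dvd_self_sub_emod)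
    have h2 : x ≠ x - x % k := fun e => h (by rw [e]; exact Int.dvd_self_sub_emod)
    have h3 := hS x hx _ h1 h2
    have h4 := line_dist x (x - x % k)
    have h5 := Int.emod_lt_of_pos x (by omega : (0 : ℤ) < k)
    have h6 := Int.emod_nonneg x (by omega : (k : ℤ) ≠ 0)
    rw [sub_sub_cancel, abs_of_nonneg h6] at h4
    omega

end Pool.Agent.MP_6f70ff_gt
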